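import Pool.Agent.Z15.V.Stm

set_option autoImplicit false

namespace Pool.Agent.HX6.V15

open Module Pool.Agent.Y90 Pool.Agent.R915 Pool.Agent.W546.GHC Pool.Agent.Z15.V
open Pool.Agent.N178.HX (Cor)

theorem t_V_COR : V_CORi := by
  intro hT hD hF 𝒜 X n j
  rw [Submodule.span_le]
  have h := hF X (fun c i => Cor 𝒜 X (i - 2 * c) i) (fun i => hT 𝒜 X i) ?_ j (n + 2 * j)
  · have e : n + 2 * j - 2 * j = n := Nat.add_sub_cancel n (2 * j)
    simp only [e] at h
    exact h
  · intro c i η hη B hB g hg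
    have e : i + 2 - 2 * (c + 1) = i - 2 * c := by omega
    simp only [e]
    exact hD 𝒜 X (i - 2 * c) i η hη B hB g hg

end Pool.Agent.HX6.V15
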