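import Pool.Agent.Z15.V.Stm

set_option autoImplicit false

namespace Pool.Agent.HX6.V15

open Module Pool.Agent.Y90 Pool.Agent.R915 Pool.Agent.W546.GHC Pool.Agent.Z15.V
open Pool.Agent.N178.HX (Cor)
open Pool.Agent.N178.HW (prodAV)

theorem isHom_inl (X Y : AV) : IsHom X (prodAV X Y) (LinearMap.inl ℚ X.H Y.H) := by
  refine ⟨LinearMap.inl ℂ X.T Y.T, fun v => ?_⟩
  change (X.per v, (0 : Y.T)) = (X.per v, Y.per 0)
  rw [map_zero]

theorem isHom_inr (X Y : AV) : IsHom Y (prodAV X Y) (LinearMap.inr ℚ X.H Y.H) := by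
  refine ⟨LinearMap.inr ℂ X.T Y.T, fun v => ?_⟩
  change ((0 : X.T), Y.per v) = (X.per 0, Y.per v)
  rw [map_zero]

theorem cor_zero (𝒜 : Sys) (X : AV) : Cor 𝒜 X 0 0 = ⊤ := by
  rw [eq_top_iff]
  intro f _
  refine Submodule.subset_span ⟨X, prodAV X X, LinearMap.inl ℚ X.H X.H, LinearMap.inr ℚ X.H X.H,
    AlternatingMap.constOfIsEmpty ℚ (prodAV X X).H (Fin 0 ⊕ Fin 0) (f Fin.elim0), Fin.elim0,
    isHom_inl X X, isHom_inr X X, ?_, 𝒜.unit _, fun x => ?_⟩
  · constructor
    · rintro ⟨a, b⟩ ⟨c, d⟩ h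
      have h' : ((a, 0) : X.H × X.H) + (0, b) = (c, 0) + (0, d) := h
      rw [Prod.mk_add_mk, Prod.mk_add_mk, add_zero, zero_add, add_zero, zero_add] at h'
      exact h'
    · rintro ⟨c, d⟩
      refine ⟨(c, d), ?_⟩
      have h' : ((c, 0) : X.H × X.H) + (0, d) = (c, d) := by
        rw [Prod.mk_add_mk, add_zero, zero_add]
      exact h'
  · rw [AlternatingMap.constOfIsEmpty_apply]
    congr 1
    exact Subsingleton.elim _ _

theorem t_V_TOP : V_TOPi := by
  intro hL 𝒜 X n
  induction n with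
  | zero => exact cor_zero 𝒜 X
  | succ n ih =>
    rw [eq_top_iff]
    intro f _
    let b := Module.finBasis ℚ X.H
    let M : Fin (finrank ℚ X.H) → MultilinearMap ℚ (fun _ : Fin (n + 1) => X.H) ℚ := fun k =>
      ((b.coord k).smulRight (f.curryLeft (b k)).toMultilinearMap).uncurryLeft
    have hM : ∀ k, (M k).alternatization ∈ Cor 𝒜 X (n + 1) (n + 1) := by
      intro k
      refine hL 𝒜 X n n (f.curryLeft (b k)) (ih ▸ Submodule.mem_top) (b.coord k) _ fun x => ?_
      rw [MultilinearMap.alternatization_apply]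
      refine Finset.sum_congr rfl fun σ _ => ?_
      rw [MultilinearMap.domDomCongr_apply, Units.smul_def, zsmul_eq_mul]
      rfl
    have hsum : ∑ k, M k = f.toMultilinearMap := by
      ext x
      rw [_root_.MultilinearMap.sum_apply]
      have h1 : ∀ k, M k x = b.coord k (x 0) * f (Matrix.vecCons (b k) (Fin.tail x)) := fun k => rfl
      have h2 : ∀ v : X.H, f (Matrix.vecCons v (Fin.tail x)) =
          f.curryLeft v (Fin.tail x) := fun v => rfl
      have h3 : f x = f.curryLeft (x 0) (Fin.tail x) := by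
        rw [← h2]
        congr 1
        exact (Fin.cons_self_tail x).symm
      change _ = f x
      rw [h3, Finset.sum_congr rfl fun k _ => h1 k]
      conv_rhs => rw [← b.sum_repr (x 0)]
      have h6 : ∀ (s : Finset (Fin (finrank ℚ X.H))) (F : Fin (finrank ℚ X.H) → X.H [⋀^Fin n]→ₗ[ℚ] ℚ),
          (∑ k ∈ s, F k) (Fin.tail x) = ∑ k ∈ s, F k (Fin.tail x) := by
        intro s F
        induction s using Finset.induction_on with
        | empty => simp
        | insert a s ha ih => rw [Finset.sum_insert ha, Finset.sum_insert ha, ← ih]; rfl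
      rw [map_sum, h6]
      refine Finset.sum_congr rfl fun k _ => ?_
      rw [h2, map_smul, AlternatingMap.smul_apply, smul_eq_mul]
      rfl
    have hall : (∑ k, M k).alternatization = ∑ k, (M k).alternatization := map_sum _ _ _
    rw [hsum, AlternatingMap.coe_alternatization, Fintype.card_fin] at hall
    have hmem : (n + 1).factorial • f ∈ Cor 𝒜 X (n + 1) (n + 1) := by
      rw [hall]
      exact Submodule.sum_mem _ fun k _ => hM k
    have h0 : ((n + 1).factorial : ℚ) ≠ 0 := Nat.cast_ne_zero.mpr (Nat.factorial_ne_zero _)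
    have h5 := Submodule.smul_mem _ ((n + 1).factorial : ℚ)⁻¹ hmem
    rw [← Nat.cast_smul_eq_nsmul ℚ, smul_smul, inv_mul_cancel₀ h0, one_smul] at h5
    exact h5

end Pool.Agent.HX6.V15
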